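import Pool.Agent.TH464.PO.ShiftInst

set_option autoImplicit false

/-!
# Almost prime pairs `m`, `m + d`: the density in all windows around almost all of them, uniformly

Let `m` be good if `m` and `m + d` both have at most `r` prime factors, all larger than `X ^ (1 /
r)`. Let `V` be the product of `1 - ρ(p) / p` over the primes `p ≤ X ^ (1 / r)`. Given `θ > 0` and
`ε > 0` there are `K` and `r0` such that for every `r ≥ r0` and all large `X`, uniformly for all
even `d ≤ X`, in ALL intervals `(Z, Z + Y]` with `Z, Y ≥ X ^ θ`, `Z + Y ≤ 2 X`, for all but at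
most `ε Y V` of the good integers `n` of the interval (there are about `Y V` of them) ALL windows
`(u, v]` around `n` inside it of length at least `K / V` contain `(1 ± ε) (v - u) V` good
integers.
-/

namespace Pool.Agent.Results.MP_5628fe_nt.ExactNeighbours

open Finset Filter

/-- `N` has at most `B` prime factors (with multiplicity), all of them larger than `z`. -/
def AlmostPrime (B : ℕ) (z : ℝ) (N : ℕ) : Prop :=
  N.primeFactorsList.length ≤ B ∧ ∀ p : ℕ, p.Prime → p ∣ N → z < (p : ℝ)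

/-- `m` is good: `m` and `m + d` both have at most `r` prime factors, all larger than `X ^ (1 / r)`. -/
def Good (r X d m : ℕ) : Prop :=
  AlmostPrime r ((X : ℝ) ^ (1 / (r : ℝ))) m ∧ AlmostPrime r ((X : ℝ) ^ (1 / (r : ℝ))) (m + d)

open Classical in
/-- The sieve density: the product of `1 - ρ(p) / p` over the primes `p ≤ X ^ (1 / r)`, where `ρ(p)` is
the number of the `t` mod `p` with `p ∣ t` or `p ∣ t + d`. -/
noncomputable def V (r X d : ℕ) : ℝ :=
  ∏ p ∈ (Finset.range (⌊(X : ℝ) ^ (1 / (r : ℝ))⌋₊ + 1)).filter Nat.Prime,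
    (1 - (((Finset.range p).filter (fun t : ℕ => p ∣ t ∨ p ∣ t + d)).card : ℝ) / p)

open Classical in
/-- The number of the good `m` in `(u, v]`. -/
noncomputable def N (r X d u v : ℕ) : ℕ :=
  ((Finset.Ioc u v).filter (fun m => Good r X d m)).card

/-- All windows around `n` inside `(Z, Z + Y]` of length at least `K / V` have the density `V` up to
`ε`. -/
def AllWindows (r X d : ℕ) (K ε : ℝ) (Z Y n : ℕ) : Prop :=
  ∀ u v : ℕ, Z ≤ u → u < n → n ≤ v → v ≤ Z + Y → K ≤ ((v : ℝ) - u) * V r X d →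
    |(N r X d u v : ℝ) - (v - u) * V r X d| ≤ ε * ((v - u) * V r X d)

open Pool.Agent.TH464.PO

open Classical in
/-- **The density in all windows around almost all of the good integers**, uniformly. -/
theorem result (θ : ℝ) (hθ : 0 < θ) (ε : ℝ) (hε : 0 < ε) :
    ∃ (K : ℝ) (r0 : ℕ), 0 < K ∧ ∀ r : ℕ, r0 ≤ r → ∀ᶠ X : ℕ in atTop, ∀ d : ℕ, 1 ≤ d → d ≤ X → Even d →
      ∀ Z Y : ℕ, (X : ℝ) ^ θ ≤ Z → (X : ℝ) ^ θ ≤ Y → Z + Y ≤ 2 * X →
        (((Finset.Ioc Z (Z + Y)).filter
          (fun n => Good r X d n ∧ ¬ AllWindows r X d K ε Z Y n)).card : ℝ) ≤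
            ε * (Y * V r X d) := by
  obtain ⟨K, r0, hK, h⟩ := sh_ex 2 le_rfl θ hθ ε hε
  refine ⟨K, r0, hK, fun r hr => ?_⟩
  filter_upwards [h r hr] with X hX d hd1 hdX hde Z Y hXZ hXY hZY
  exact (hX (P2 d) (P2_card d hd1) (P2_le d X hdX) (P2_ad d hde)
    (Good r X d) (V r X d) (P2_ap d r _) (P2_V d _) Z Y hXZ hXY hZY).2

end Pool.Agent.Results.MP_5628fe_nt.ExactNeighbours
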