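import Pool.Agent.TH464.PO.ShiftInst
import Pool.Agent.TH464.PO.ShiftJoint

set_option autoImplicit false

/-!
# Almost prime pairs `m`, `m + d`: the joint law in several windows around them, uniformly

Let `m` be good if `m` and `m + d` both have at most `r` prime factors, all larger than `X ^ (1 /
r)`. Let `V` be the product of `1 - ρ(p) / p` over the primes `p ≤ X ^ (1 / r)`. Uniformly for all
even `d ≤ X`, in ALL intervals `(Z, Z + Y]` inside `[0, 2 X]` of length `Y ≥ X ^ θ`: if `m` runs
through the good integers in `(Z, Z + Y]`, the numbers of the good integers in any `s` disjoint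
windows on both sides of `m`, at distance at most `x / V` from `m` and not containing `m`, are
asymptotically independent Poisson variables, whose means are `V` times the lengths of the
windows. In particular the gap before `m` and the gap after `m` are asymptotically independent.
-/

namespace Pool.Agent.Results.MP_5628fe_nt.IndependentNeighbours

open Finset Filter

/-- `N` has at most `B` prime factors (with multiplicity), all of them larger than `z`. -/
def AlmostPrime (B : ℕ) (z : ℝ) (N : ℕ) : Prop :=
  N.primeFactorsList.length ≤ B ∧ ∀ p : ℕ, p.Prime → p ∣ N → z < (p : ℝ)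

/-- `m` is good: `m` and `m + d` both have at most `r` prime factors, all larger than `X ^ (1 / r)`. -/
def Good (r X d m : ℕ) : Prop :=
  AlmostPrime r ((X : ℝ) ^ (1 / (r : ℝ))) m ∧ AlmostPrime r ((X : ℝ) ^ (1 / (r : ℝ))) (m + d)

open Classical in
/-- The sieve density: the product of `1 - ρ(p) / p` over the primes `p ≤ X ^ (1 / r)`, where `ρ(p)` is
the number of the `t` mod `p` with `p ∣ t` or `p ∣ t + d`. -/
noncomputable def V (r X d : ℕ) : ℝ :=
  ∏ p ∈ (Finset.range (⌊(X : ℝ) ^ (1 / (r : ℝ))⌋₊ + 1)).filter Nat.Prime,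
    (1 - (((Finset.range p).filter (fun t : ℕ => p ∣ t ∨ p ∣ t + d)).card : ℝ) / p)

open Classical in
/-- The number of the good `m` in `(u, v]`. -/
noncomputable def N (r X d u v : ℕ) : ℕ :=
  ((Finset.Ioc u v).filter (fun m => Good r X d m)).card

/-- The probability of `E` for the Poisson distribution of mean `x`. -/
noncomputable def Poi (x : ℝ) (E : Finset ℕ) : ℝ :=
  ∑ j ∈ E, Real.exp (-x) * x ^ j / j.factorial

open Pool.Agent.TH464.PO

open Classical in
/-- **The joint law in several windows around the good integers**, uniformly in the pattern and in all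
intervals. The windows around `m` are the `(m - q + u_i, m - q + v_i]`; as `v_i < q` or `q ≤ u_i`, they do
not contain `m`. -/
theorem result (θ : ℝ) (hθ : 0 < θ) (s : ℕ) (x ε : ℝ) (hε : 0 < ε) :
    ∃ r0 : ℕ, ∀ r : ℕ, r0 ≤ r → ∀ᶠ X : ℕ in atTop, ∀ d : ℕ, 1 ≤ d → d ≤ X → Even d →
      ∀ Z Y : ℕ, (X : ℝ) ^ θ ≤ Y → Z + Y ≤ 2 * X →
      ∀ (q : ℕ) (u v : Fin s → ℕ), q * V r X d ≤ x → (∀ i, u i ≤ v i) →
      (∀ i, v i * V r X d ≤ x) → (∀ i, v i < q ∨ q ≤ u i) →
      (∀ i j, i ≠ j → v i ≤ u j ∨ v j ≤ u i) → ∀ E : Fin s → Finset ℕ,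
        |(((Finset.Ioc Z (Z + Y)).filter (fun m => Good r X d m ∧
            ∀ i, N r X d (m + u i - q) (m + v i - q) ∈ E i)).card : ℝ) -
          Y * V r X d * ∏ i, Poi (((v i : ℝ) - u i) * V r X d) (E i)| ≤
            ε * (Y * V r X d) := by
  obtain ⟨r0, h⟩ := sh_palm 2 le_rfl θ hθ s x ε hε
  refine ⟨r0, fun r hr => ?_⟩
  filter_upwards [h r hr] with X hX d hd1 hdX hde
  exact hX (P2 d) (P2_card d hd1) (P2_le d X hdX) (P2_ad d hde)
    (Good r X d) (V r X d) (P2_ap d r _) (P2_V d _)

end Pool.Agent.Results.MP_5628fe_nt.IndependentNeighbours
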