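import Pool.Agent.TH977.PW.Prog
import Pool.Agent.TH977.PW.Block

set_option autoImplicit false

/-!
# Consecutive rough numbers with difference `6` between consecutive cubes

Let `R r` be the set of the `p` for which all prime factors of `p` and of `p + 6` are larger than
`p ^ (1 / r)`; it contains the first elements of all pairs of sexy primes. For all large `n` there
are between `n ^ 3` and `(n + 1) ^ 3` at least `κ n ^ 2 / log ^ 2 n` pairs `(p, p + 6)` of
CONSECUTIVE `p ^ (1 / r)`-rough numbers with at most `r` prime factors each. Let `A` be an ARBITRARY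
subset of `R r` (the first elements of these pairs, or of all pairs of sexy primes). For all large
`n` all but `ε n ^ 2 / log ^ 2 n` of the elements of `A` between `n ^ 3` and `(n + 1) ^ 3` are
regular points of `A`: all intervals around them of length between `log ^ 2 (n ^ 3) / c` and
`3 n ^ 2 + 3 n` contain the right order of elements of `A`, with constant density up to `δ` at all
but `B (ε, δ)` dyadic scales.
-/

namespace Pool.Agent.Results.MP_5628fe_nt.RegularPairs

open Finset Filter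
open Pool.Agent.TH977.PW (N Irregular)

/-- All prime factors of `p` and of `p + 6` are larger than `p ^ (1 / r)`. -/
def R (r : ℕ) : Set ℕ :=
  {p | ∀ q : ℕ, q.Prime → q ∣ p * (p + 6) → (p : ℝ) ^ (1 / (r : ℝ)) < (q : ℝ)}

/-- `p` and `p + 6` are consecutive among the integers without prime factors `≤ p ^ (1 / r)`, and
both have at most `r` prime factors (with multiplicity). -/
def Pair (r : ℕ) : Set ℕ :=
  {p | p ∈ R r ∧
    (∀ j : ℕ, 0 < j → j < 6 → ∃ q : ℕ, q.Prime ∧ q ∣ p + j ∧ (q : ℝ) ≤ (p : ℝ) ^ (1 / (r : ℝ))) ∧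
    p.primeFactorsList.length ≤ r ∧ (p + 6).primeFactorsList.length ≤ r}

lemma pow_lem (n : ℕ) : (((n ^ 3 : ℕ) : ℝ)) ^ ((2 : ℝ) / 3) = (n : ℝ) ^ 2 := by
  push_cast
  rw [← Real.rpow_natCast, ← Real.rpow_mul (Nat.cast_nonneg n), ← Real.rpow_natCast]
  norm_num

lemma log_lem (n : ℕ) : Real.log ((n ^ 3 : ℕ) : ℝ) = 3 * Real.log n := by
  push_cast
  rw [Real.log_pow]
  norm_num

/-- **Regular pairs between consecutive cubes.** -/
theorem result : ∃ r₀ : ℕ, 2 ≤ r₀ ∧ ∀ r : ℕ, r₀ ≤ r →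
      (∀ p : ℕ, p.Prime → (p + 6).Prime → p ∈ R r) ∧
      (∃ κ : ℝ, 0 < κ ∧ ∀ᶠ n : ℕ in atTop,
        κ * n ^ 2 / Real.log n ^ 2 ≤ N (Pair r) (n ^ 3) ((n + 1) ^ 3 - 7)) ∧
      ∀ ε : ℝ, 0 < ε → ∃ c : ℝ, 0 < c ∧ ∀ δ : ℝ, 0 < δ → ∃ B : ℕ,
        ∀ᶠ n : ℕ in atTop, ∀ A : Set ℕ, A ⊆ R r →
          (N (Irregular A 2 c δ B (n ^ 3) (3 * n ^ 2 + 3 * n)) (n ^ 3) ((n + 1) ^ 3 - 1) : ℝ) ≤
            ε * n ^ 2 / Real.log n ^ 2 := by
  obtain ⟨M, n0, hM, hcop, hbl⟩ := Pool.Agent.TH977.PW.block {0, 6}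
    ((Finset.range 6).erase 0) (by decide)
  have hdvd : ∀ p m : ℕ, p.Prime → p ∣ m * (m + 6) → ∃ h ∈ ({0, 6} : Finset ℕ), p ∣ m + h := by
    intro p m hp hd
    rcases (Nat.Prime.dvd_mul hp).1 hd with h3 | h3
    · exact ⟨0, by simp, by simpa using h3⟩
    · exact ⟨6, by simp, h3⟩
  obtain ⟨r0, hr0, h⟩ := Pool.Agent.TH977.PW.final_prog {0, 6} ⟨0, by simp⟩ M n0 hM hcop
    (fun p hp => by
      by_cases h7 : p = 7
      · subst h7
        refine ⟨2, fun h hh hd => ?_⟩
        rw [mem_insert, mem_singleton] at hh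
        omega
      · refine ⟨1, fun h hh hd => ?_⟩
        rw [mem_insert, mem_singleton] at hh
        rcases hh with rfl | rfl
        · exact hp.one_lt.ne' (Nat.dvd_one.1 (by simpa using hd))
        · exact h7 ((Nat.prime_dvd_prime_iff_eq hp (by norm_num)).1 hd))
    (fun r => R r) (fun r => Pair r) 2 (by decide)
    (fun r m _ hm h hh p hp hd => hm p hp (by
      rw [mem_insert, mem_singleton] at hh
      rcases hh with rfl | rfl
      · exact (by simpa using hd : p ∣ m).mul_right _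
      · exact hd.mul_left _))
    (fun r hr => by
      have hrr : (0 : ℝ) < 1 / (r : ℝ) := by
        have : (0 : ℝ) < r := by exact_mod_cast (by omega : 0 < r)
        positivity
      have ht : Tendsto (fun m : ℕ => (m : ℝ) ^ (1 / (r : ℝ))) atTop atTop :=
        (tendsto_rpow_atTop hrr).comp tendsto_natCast_atTop_atTop
      filter_upwards [ht.eventually_ge_atTop (M : ℝ)] with m hmM hmod hro hfew
      refine ⟨fun p hp hd => ?_, fun j hj1 hj2 => ?_, by simpa using hfew 0 (by simp),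
        hfew 6 (by simp)⟩
      · obtain ⟨h, hh, h4⟩ := hdvd p m hp hd
        exact hro h hh p hp h4
      · obtain ⟨q, hq, hqM, hqd⟩ := hbl j (by rw [mem_erase, mem_range]; omega)
        refine ⟨q, hq, hqd m hmod, le_trans ?_ hmM⟩
        exact_mod_cast Nat.le_of_dvd hM hqM) (2 / 3) (by norm_num) (by norm_num)
  have hcube : Tendsto (fun n : ℕ => n ^ 3) atTop atTop := by
    apply tendsto_atTop_mono (f := fun n : ℕ => n) _ tendsto_id
    intro n
    exact Nat.le_self_pow (by norm_num) n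
  refine ⟨r0, hr0, fun r hr => ⟨?_, ?_, ?_⟩⟩
  · intro p hp hp2 q hq hd
    rcases (Nat.Prime.dvd_mul hq).1 hd with h3 | h3
    · exact Pool.Agent.TH977.PW.rpow_lt_dvd r p q (hr0.trans hr) hp hq h3
    · rw [(Nat.prime_dvd_prime_iff_eq hq hp2).1 h3]
      exact Pool.Agent.TH977.PW.rpow_lt_of_le r p _ (hr0.trans hr) hp.two_le (by omega)
  · obtain ⟨κ, hκ, h1⟩ := (h r hr).1
    refine ⟨κ / 9, by positivity, ?_⟩
    filter_upwards [hcube.eventually h1, eventually_ge_atTop 4] with n hn hn4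
    have hn4r : (4 : ℝ) ≤ n := by exact_mod_cast hn4
    have e1 : n ^ 3 + (3 * n ^ 2 + 3 * n - 6) = (n + 1) ^ 3 - 7 := by
      have : (n + 1) ^ 3 = n ^ 3 + (3 * n ^ 2 + 3 * n) + 1 := by ring
      have h6 : 6 ≤ 3 * n ^ 2 + 3 * n := by nlinarith
      omega
    have e2 : (((3 * n ^ 2 + 3 * n - 6 : ℕ)) : ℝ) = 3 * n ^ 2 + 3 * n - 6 := by
      rw [Nat.cast_sub (by nlinarith)]
      push_cast
      ring
    have h2 := hn (3 * n ^ 2 + 3 * n - 6) (by
      rw [pow_lem, e2]
      nlinarith) (by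
      have : 4 * n ^ 2 ≤ n ^ 3 := by
        have : n ^ 3 = n * n ^ 2 := by ring
        rw [this]
        exact Nat.mul_le_mul_right _ hn4
      have : 4 * n ≤ n ^ 2 := by nlinarith
      omega)
    rw [e1, e2, log_lem] at h2
    refine le_trans ?_ h2
    have hl : 0 < Real.log n := Real.log_pos (by linarith)
    calc κ / 9 * n ^ 2 / Real.log n ^ 2 = κ * n ^ 2 / (3 * Real.log n) ^ 2 := by
          rw [mul_pow]
          field_simp
          norm_num
      _ ≤ _ := by
          gcongr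
          nlinarith
  · intro ε hε
    obtain ⟨c, hc, h1⟩ := (h r hr).2 ε hε
    refine ⟨c, hc, fun δ hδ => ?_⟩
    obtain ⟨B, h2⟩ := h1 δ hδ
    refine ⟨B, ?_⟩
    filter_upwards [hcube.eventually h2, eventually_ge_atTop 9] with n hn hn9 A hA
    have hn9r : (9 : ℝ) ≤ n := by exact_mod_cast hn9
    have e1 : n ^ 3 + (3 * n ^ 2 + 3 * n) = (n + 1) ^ 3 - 1 := by
      have : (n + 1) ^ 3 = n ^ 3 + (3 * n ^ 2 + 3 * n) + 1 := by ring
      omega
    have h3 := hn (3 * n ^ 2 + 3 * n) (by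
      rw [pow_lem]
      push_cast
      nlinarith) (by
      have h4 : 9 * n ^ 2 ≤ n ^ 3 := by
        have : n ^ 3 = n * n ^ 2 := by ring
        rw [this]
        exact Nat.mul_le_mul_right _ hn9
      have : 9 * n ≤ n ^ 2 := by nlinarith
      omega) A hA
    rw [e1, log_lem] at h3
    refine h3.trans ?_
    have hl : 0 < Real.log n := Real.log_pos (by linarith)
    rw [div_le_div_iff₀ (by positivity) (by positivity)]
    push_cast
    have h5 : (3 * (n : ℝ) ^ 2 + 3 * n) ≤ 9 * n ^ 2 := by nlinarith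
    have h6 : 0 ≤ ε * Real.log n ^ 2 := by positivity
    nlinarith [mul_le_mul_of_nonneg_left h5 h6]

end Pool.Agent.Results.MP_5628fe_nt.RegularPairs
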